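import Mathlib
import Pool.Agent.H507_B.Apply
import Pool.Agent.H507_B.Equiv

set_option autoImplicit false

/-!
# B-sets and the Borel conjecture: sections of positive measure

Let `E` be a subset of the plane with `H_φ(E) = 0` for all superlinear gauges `φ` (`NullSuper E`), and let
`L z`, for `z` in a metric space `Z`, be sets which are uniformly separated, for example the fibres of a
Lipschitz map to `Z`, or the lines `y = a x + b` in a bounded region. Then the set of all parameters `z`
with `H¹(E ∩ L z) > 0` has strong measure zero.

So the Borel conjecture holds if and only if, for all these sets `E`, `H¹(E ∩ ℓ) > 0` for countably many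
lines `ℓ` only. If the Borel conjecture holds and there is a B-set, then there is a B-set `E` such
that `H¹(E ∩ ℓ) = 0` for every line `ℓ`. In other words: Q1 is true for B-sets which
have uncountably many linear sections of positive `H¹`-measure (as the B-sets `X × [0, 1]` obtained
from an uncountable set `X` of strong measure zero).

Proof. Let `H¹(E ∩ L z)`, more precisely the content for sets of small diameter, be more than `c`, and let
`ε n` be given. Choose numbers `m k` (about `4 · 8^k / c`), then radii `ρ k` less than `ε n / 2` for
the indices `n` in the first `k + 1` blocks (of lengths `m 0, m 1, …`), then scales `r k`, so small that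
sets `L z`, `L z'` with parameters at distance more than `ρ k` are `r k`-close only on a small part. Let
`φ(t) = 4^{-k} t` for `r (k+1) < t ≤ r k`. There are sets `U i` which cover `E` with
`∑ φ(diam U i) < 1`; so for every `k` the sum of the diameters in `(r (k+1), r k]` is at most `4^k`. For
every `z` there is a `k` such that the sets of this level cover a part of `E ∩ L z` of content at
least `c / 2^{k+1}`; if `z`, `z'` are two such parameters for the same `k` at distance more than
`ρ k`, then the parts off the intersections of neighbourhoods are covered by different sets. So
there are at most `m k` parameters for the level `k` with distances more than `ρ k`.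
-/

open Set
open scoped NNReal
open Pool.Agent.H507_B

namespace Pool.Agent.Results.MP_820503_lc.FibresAndLines

theorem result :
    -- 1. in ZFC: the parameters of the sections of positive measure
    (∀ E : Set Plane, NullSuper E →
      (∀ (Z : Type) [PseudoMetricSpace Z] (L : Z → Set Plane), UniformlySeparated L →
        SMZ {z | 0 < H id (E ∩ L z)}) ∧
      (∀ (Z : Type) [PseudoMetricSpace Z] (f : Plane → Z) (K : ℝ≥0), LipschitzWith K f →
        SMZ {z | 0 < H id (E ∩ f ⁻¹' {z})})) ∧
    -- 2. the Borel conjecture in terms of linear sections
    (BorelConjecture ↔ ∀ E : Set Plane, NullSuper E →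
      {ℓ : Set Plane | IsLine ℓ ∧ 0 < H id (E ∩ ℓ)}.Countable) ∧
    -- 3. reduction of Q1 to B-sets without linear sections of positive measure
    (BorelConjecture → (∃ E, BSet E) → ∃ E, BSet E ∧ ∀ ℓ, IsLine ℓ → H id (E ∩ ℓ) = 0) :=
  ⟨fun E hE => ⟨fun _ _ L hL => main L hL E hE, fun _ _ f K hf => fibres E hE f K hf⟩,
    borelConjecture_iff, exists_null_on_lines⟩

end Pool.Agent.Results.MP_820503_lc.FibresAndLines
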